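import Pool.Agent.E8helper19.QC.Stm

/-!
# Project QC: elementary estimates for the assembly
-/

set_option autoImplicit false

open MeasureTheory Filter Topology SchwartzMap FourierTransform Laplacian
open scoped ContDiff ENNReal Real

namespace Pool.Agent.E8helper70.QC

open Pool.Agent.E8helper19.QC

lemma continuous_pv {n : ℕ} (p : MvPolynomial (Fin n) ℝ) : Continuous (pv p) := by
  unfold pv
  exact (MvPolynomial.continuous_eval p).comp (by fun_prop)

lemma pv_bound {n : ℕ} (p : MvPolynomial (Fin n) ℝ) (m : ℕ) (hp : p.totalDegree ≤ m) :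
    ∃ K : ℝ, 0 ≤ K ∧ ∀ x : E n, |pv p x| ≤ K * (1 + ‖x‖) ^ m := by
  refine ⟨∑ d ∈ p.support, |p.coeff d|, Finset.sum_nonneg (fun _ _ => abs_nonneg _), fun x => ?_⟩
  unfold pv
  rw [MvPolynomial.eval_eq, Finset.sum_mul]
  refine (Finset.abs_sum_le_sum_abs _ _).trans (Finset.sum_le_sum fun d hd => ?_)
  rw [abs_mul]
  apply mul_le_mul_of_nonneg_left _ (abs_nonneg _)
  rw [Finset.abs_prod]
  have h1 : ∀ i ∈ d.support, |x i ^ d i| ≤ (1 + ‖x‖) ^ d i := by
    intro i _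
    rw [abs_pow]
    apply pow_le_pow_left₀ (abs_nonneg _)
    have h2 : |x i| ≤ ‖x‖ := by
      have := PiLp.norm_apply_le x i
      rwa [Real.norm_eq_abs] at this
    linarith
  refine (Finset.prod_le_prod (fun _ _ => abs_nonneg _) h1).trans ?_
  rw [Finset.prod_pow_eq_pow_sum]
  apply pow_le_pow_right₀ (by linarith [norm_nonneg x])
  have h3 := MvPolynomial.le_totalDegree hd
  exact h3.trans hp

lemma log_one_add_le {n m : ℕ} (hm : 1 ≤ m) (x : E n) : Real.log (1 + ‖x‖) ≤ (1 + ‖x‖) ^ m := by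
  have h0 : 0 ≤ ‖x‖ := norm_nonneg x
  have h1 : Real.log (1 + ‖x‖) ≤ ‖x‖ := by
    have := Real.log_le_sub_one_of_pos (show 0 < 1 + ‖x‖ by linarith)
    linarith
  have h2 : (1 + ‖x‖) ^ 1 ≤ (1 + ‖x‖) ^ m := pow_le_pow_right₀ (by linarith) hm
  rw [pow_one] at h2
  linarith

/-- the kernel -/
lemma log_kernel {n : ℕ} {s : ℝ} (hs : 0 < s) (x y : E n) :
    |Real.log ‖x - y‖| ≤ (1 / s) * ‖x - y‖ ^ (-s) + (Real.log (1 + ‖x‖) + Real.log (1 + ‖y‖)) := by
  have hx : 0 ≤ ‖x‖ := norm_nonneg x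
  have hy : 0 ≤ ‖y‖ := norm_nonneg y
  have hlx : 0 ≤ Real.log (1 + ‖x‖) := Real.log_nonneg (by linarith)
  have hly : 0 ≤ Real.log (1 + ‖y‖) := Real.log_nonneg (by linarith)
  have h0 : 0 ≤ ‖x - y‖ := norm_nonneg _
  have hp : 0 ≤ (1 / s) * ‖x - y‖ ^ (-s) := mul_nonneg (by positivity) (Real.rpow_nonneg h0 _)
  rcases eq_or_lt_of_le h0 with h | h
  · rw [← h, Real.log_zero, abs_zero, h]
    linarith
  rcases le_or_gt 1 ‖x - y‖ with h1 | h1
  · rw [abs_of_nonneg (Real.log_nonneg h1)]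
    have h2 : ‖x - y‖ ≤ (1 + ‖x‖) * (1 + ‖y‖) := by
      have := norm_sub_le x y
      nlinarith
    have h3 := Real.log_le_log h h2
    rw [Real.log_mul (by linarith) (by linarith)] at h3
    linarith
  · have h2 : Real.log ‖x - y‖ ≤ 0 := Real.log_nonpos h0 h1.le
    rw [abs_of_nonpos h2]
    have h3 : Real.log (‖x - y‖⁻¹) ≤ (‖x - y‖⁻¹) ^ s / s := Real.log_le_rpow_div (by positivity) hs
    rw [Real.log_inv, Real.inv_rpow h0, ← Real.rpow_neg h0] at h3
    have h4 : ‖x - y‖ ^ (-s) / s = (1 / s) * ‖x - y‖ ^ (-s) := by ring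
    linarith

lemma weight_bound (n : ℕ) (hn : 1 ≤ n) (r : ℝ) (hr : 0 ≤ r) :
    (1 + r) ^ (n - 1) * (1 + r ^ (2 * n))⁻¹ ≤ 2 ^ (2 * n) * (1 + r) ^ (-((n : ℝ) + 1)) := by
  have h1 : (1 + r) ^ (2 * n) ≤ 2 ^ (2 * n) * (1 + r ^ (2 * n)) := by
    rcases le_total r 1 with h | h
    · calc (1 + r) ^ (2 * n) ≤ 2 ^ (2 * n) := pow_le_pow_left₀ (by linarith) (by linarith) _
        _ = 2 ^ (2 * n) * 1 := by ring
        _ ≤ _ := mul_le_mul_of_nonneg_left (by
            have : 0 ≤ r ^ (2 * n) := by positivity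
            linarith) (by positivity)
    · calc (1 + r) ^ (2 * n) ≤ (2 * r) ^ (2 * n) := pow_le_pow_left₀ (by linarith) (by linarith) _
        _ = 2 ^ (2 * n) * r ^ (2 * n) := by rw [mul_pow]
        _ ≤ _ := mul_le_mul_of_nonneg_left (by linarith) (by positivity)
  have h2 : (1 + r) ^ (-((n : ℝ) + 1)) = ((1 + r) ^ (n + 1))⁻¹ := by
    rw [Real.rpow_neg (by linarith)]
    congr 1
    rw [← Real.rpow_natCast]
    push_cast
    rfl
  rw [h2]
  have h3 : 0 < 1 + r ^ (2 * n) := by positivity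
  have h4 : 0 < (1 + r) ^ (n + 1) := by positivity
  rw [← div_eq_mul_inv, ← div_eq_mul_inv, div_le_div_iff₀ h3 h4, ← pow_add]
  have h5 : n - 1 + (n + 1) = 2 * n := by omega
  rw [h5]
  exact h1

lemma integrable_weight (n : ℕ) (hn : 1 ≤ n) :
    Integrable (fun x : E n => (1 + ‖x‖) ^ (n - 1) * (1 + ‖x‖ ^ (2 * n))⁻¹) := by
  have h1 : Integrable (fun x : E n => (1 + ‖x‖) ^ (-((n : ℝ) + 1))) := by
    apply integrable_one_add_norm
    rw [finrank_euclideanSpace_fin]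
    linarith
  refine (h1.const_mul (2 ^ (2 * n) : ℝ)).mono' ?_ ?_
  · apply Continuous.aestronglyMeasurable
    apply Continuous.mul (by fun_prop)
    apply Continuous.inv₀ (by fun_prop)
    intro x
    have : 0 ≤ ‖x‖ ^ (2 * n) := by positivity
    linarith
  · refine Eventually.of_forall fun x => ?_
    have h2 : 0 ≤ (1 + ‖x‖) ^ (n - 1) * (1 + ‖x‖ ^ (2 * n))⁻¹ := by positivity
    rw [Real.norm_of_nonneg h2]
    exact weight_bound n hn ‖x‖ (norm_nonneg x)

end Pool.Agent.E8helper70.QC
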