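import Pool.Agent.E8helper70.QC.Fub

/-!
# Project QC: assembly of the theorem
-/

set_option autoImplicit false

open MeasureTheory Filter Topology SchwartzMap FourierTransform Laplacian
open scoped ContDiff ENNReal Real

namespace Pool.Agent.E8helper70.QC

open Pool.Agent.E8helper19.QC

variable {n : ℕ}

lemma meas_rho (α : ℝ) {q : E n → ℝ} (hq : Continuous q) :
    Measurable (fun x : E n => ‖x‖ ^ ((n : ℝ) * α) * Real.exp (n * q x)) := by
  apply Measurable.mul
  · exact measurable_norm.pow_const _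
  · exact (Real.continuous_exp.comp (continuous_const.mul hq)).measurable

lemma nu_integral (α : ℝ) {q : E n → ℝ} (hq : Continuous q) (g : E n → ℂ) :
    ∫ x, g x ∂(nu α q) = ∫ x, ((‖x‖ ^ ((n : ℝ) * α) * Real.exp (n * q x) : ℝ) : ℂ) * g x := by
  unfold nu
  rw [integral_withDensity_eq_integral_toReal_smul (meas_rho α hq).ennreal_ofReal
    (Eventually.of_forall fun x => ENNReal.ofReal_lt_top)]
  apply integral_congr_ae
  refine Eventually.of_forall fun x => ?_
  simp only
  rw [ENNReal.toReal_ofReal (by positivity), Complex.real_smul]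

lemma nu_integral_real (α : ℝ) {q : E n → ℝ} (hq : Continuous q) (g : E n → ℝ) :
    ∫ x, g x ∂(nu α q) = ∫ x, (‖x‖ ^ ((n : ℝ) * α) * Real.exp (n * q x)) * g x := by
  unfold nu
  rw [integral_withDensity_eq_integral_toReal_smul (meas_rho α hq).ennreal_ofReal
    (Eventually.of_forall fun x => ENNReal.ofReal_lt_top)]
  apply integral_congr_ae
  refine Eventually.of_forall fun x => ?_
  simp only
  rw [ENNReal.toReal_ofReal (by positivity), smul_eq_mul]

lemma nu_integrable (α : ℝ) {q : E n → ℝ} (hq : Continuous q) {g : E n → ℝ} (hg : Integrable g (nu α q)) :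
    Integrable (fun x => (‖x‖ ^ ((n : ℝ) * α) * Real.exp (n * q x)) * g x) := by
  unfold nu at hg
  rw [integrable_withDensity_iff_integrable_smul' (meas_rho α hq).ennreal_ofReal
    (Eventually.of_forall fun x => ENNReal.ofReal_lt_top)] at hg
  refine hg.congr (Eventually.of_forall fun x => ?_)
  simp only
  rw [ENNReal.toReal_ofReal (by positivity), smul_eq_mul]

theorem t_FULL (hLOJ : S_LOJ) (hNU : S_NU) (hPB : S_PB) (hEX : S_EX) (hASY : S_ASY) (hDEC : S_DEC)
    (hMOM : S_MOM) (hFS : S_FS) (hEVEN : S_EVEN) : S_FULL := by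
  intro n α Λ p hn hα hΛ hΛ1 hdeg hlim
  have hn0 : (0 : ℝ) < n := by exact_mod_cast (show 0 < n by omega)
  have hmin : 0 < min 1 (1 + α) := lt_min one_pos (by linarith)
  have hL1 : 0 < Lam1 n := by
    by_contra h
    have := mul_nonpos_of_nonpos_of_nonneg (not_lt.1 h) hmin.le
    linarith
  obtain ⟨κ, hκ⟩ : ∃ κ, κ = 2 * n * Λ / Lam1 n := ⟨_, rfl⟩
  have hκ0 : 0 < κ := by rw [hκ]; positivity
  have hκ1 : κ < 2 * (n * min 1 (1 + α)) := by
    rw [hκ, div_lt_iff₀ hL1]
    have : (n : ℝ) * Λ < n * (Lam1 n * min 1 (1 + α)) := mul_lt_mul_of_pos_left hΛ1 hn0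
    linarith
  obtain ⟨s, hs1, hs2⟩ : ∃ s, κ / 2 < s ∧ s < n * min 1 (1 + α) := exists_between (by linarith)
  have hs0 : 0 < s := by linarith
  have hsn : s < n := by
    refine hs2.trans_le ?_
    have := mul_le_mul_of_nonneg_left (min_le_left 1 (1 + α)) hn0.le
    linarith
  have hsa : s < n * (1 + α) :=
    hs2.trans_le (mul_le_mul_of_nonneg_left (min_le_right 1 (1 + α)) hn0.le)
  obtain ⟨c, δ, C, hc, hδ, hLoj⟩ := hLOJ n p (by omega) hlim
  have hqc := continuous_pv p
  obtain ⟨M, hg⟩ := hNU n α s c δ C (pv p) (by omega) hα hs0 hsn hsa hqc hc hδ hLoj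
  obtain ⟨θ, hθ, Z, hZ, hθZ⟩ := hEX n (nu α (pv p)) s M κ hs0 hg hκ0 (by linarith)
  obtain ⟨-, -, hPot⟩ := hPB n (nu α (pv p)) s M hs0 hg
  obtain ⟨hPm, ⟨A, hA⟩, hlow⟩ := hPot θ hθ
  obtain ⟨c₀, hc₀⟩ : ∃ c₀, c₀ = Real.log (Λ / Z) / n := ⟨_, rfl⟩
  obtain ⟨K, hK0, hK⟩ := pv_bound p (n - 1) hdeg
  set P : E n → ℝ := Pot (nu α (pv p)) θ with hPdef
  obtain ⟨u, hu⟩ : ∃ u : E n → ℝ, u = fun x => pv p x + (2 * Λ / Lam1 n) * P x + c₀ := ⟨_, rfl⟩
  have humeas : Measurable u := by
    rw [hu]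
    exact (hqc.measurable.add (hPm.const_mul _)).add_const _
  -- the density
  have hexp : ∀ x, Real.exp (n * u x) * ‖x‖ ^ ((n : ℝ) * α) =
      (‖x‖ ^ ((n : ℝ) * α) * Real.exp (n * pv p x)) * (Λ * θ x) := by
    intro x
    rw [hθZ x]
    have h1 : n * u x = n * pv p x + κ * P x + Real.log (Λ / Z) := by
      rw [hu, hc₀, hκ]
      field_simp
    rw [h1, Real.exp_add, Real.exp_add, Real.exp_log (by positivity)]
    ring
  have hθi : Integrable θ (nu α (pv p)) := by
    by_contra h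
    have h1 := hθ.one
    rw [integral_undef h] at h1
    exact zero_ne_one h1
  -- bound for the potential
  obtain ⟨K₁, hK₁⟩ : ∃ K₁, K₁ = ∫ y, Real.log (1 + ‖y‖) * θ y ∂(nu α (pv p)) := ⟨_, rfl⟩
  have hPabs : ∀ x, |P x| ≤ |A| + |K₁| + Real.log (1 + ‖x‖) := by
    intro x
    have h1 : 0 ≤ Real.log (1 + ‖x‖) := Real.log_nonneg (by linarith [norm_nonneg x])
    have h2 := hA x
    have h3 := hlow x
    rw [← hK₁] at h3
    rw [abs_le]
    constructor
    · have := le_abs_self K₁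
      have := abs_nonneg A
      linarith
    · have := le_abs_self A
      have := abs_nonneg K₁
      linarith
  obtain ⟨K₂, hK₂⟩ : ∃ K₂, K₂ = |A| + |K₁| + 1 := ⟨_, rfl⟩
  have hK₂0 : 0 ≤ K₂ := by rw [hK₂]; positivity
  have hPabs' : ∀ x, |P x| ≤ K₂ * (1 + ‖x‖) ^ (n - 1) := by
    intro x
    have h1 := log_one_add_le (show 1 ≤ n - 1 by omega) x
    have h2 : (1 : ℝ) ≤ (1 + ‖x‖) ^ (n - 1) := one_le_pow₀ (by linarith [norm_nonneg x])
    have h3 : (|A| + |K₁|) * 1 ≤ (|A| + |K₁|) * (1 + ‖x‖) ^ (n - 1) :=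
      mul_le_mul_of_nonneg_left h2 (by positivity)
    refine (hPabs x).trans ?_
    rw [hK₂]
    linarith
  obtain ⟨K₃, hK₃⟩ : ∃ K₃, K₃ = K + 2 * Λ / Lam1 n * K₂ + |c₀| := ⟨_, rfl⟩
  have hR0 : 0 ≤ 2 * Λ / Lam1 n := by positivity
  have hK₃0 : 0 ≤ K₃ := by
    rw [hK₃]
    have := mul_nonneg hR0 hK₂0
    have := abs_nonneg c₀
    linarith
  have huabs : ∀ x, |u x| ≤ K₃ * (1 + ‖x‖) ^ (n - 1) := by
    intro x
    have h2 : (1 : ℝ) ≤ (1 + ‖x‖) ^ (n - 1) := one_le_pow₀ (by linarith [norm_nonneg x])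
    have h3 : |u x| ≤ |pv p x| + 2 * Λ / Lam1 n * |P x| + |c₀| := by
      rw [hu]
      refine (abs_add_le _ _).trans (add_le_add ((abs_add_le _ _).trans (add_le_add le_rfl ?_)) le_rfl)
      rw [abs_mul, abs_of_nonneg hR0]
    have h4 := mul_le_mul_of_nonneg_left (hPabs' x) hR0
    have h5 : |c₀| * 1 ≤ |c₀| * (1 + ‖x‖) ^ (n - 1) := mul_le_mul_of_nonneg_left h2 (abs_nonneg _)
    have h6 := hK x
    rw [hK₃]
    nlinarith
  -- integrability against `FL`
  have hmulint : ∀ (v : E n → ℝ) (φ : 𝓢(E n, ℂ)), Measurable v → ∀ L : ℝ,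
      (∀ x, |v x| ≤ L * (1 + ‖x‖) ^ (n - 1)) → Integrable (fun x => (v x : ℂ) * FL n φ x) := by
    intro v φ hv L hL
    obtain ⟨hFc, -, hFi⟩ := hDEC n φ (by omega)
    refine (hFi.const_mul L).mono' ?_ (Eventually.of_forall fun x => ?_)
    · exact ((Complex.measurable_ofReal.comp hv).mul hFc.measurable).aestronglyMeasurable
    · rw [norm_mul, Complex.norm_real, Real.norm_eq_abs, ← mul_assoc]
      exact mul_le_mul_of_nonneg_right (hL x) (norm_nonneg _)
  have huint : ∀ φ : 𝓢(E n, ℂ), Integrable (fun x => (u x : ℂ) * FL n φ x) :=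
    fun φ => hmulint u φ humeas K₃ huabs
  -- the main identity
  have hmain : ∀ φ : 𝓢(E n, ℂ), ∫ x, (u x : ℂ) * FL n φ x =
      ∫ x, ((Real.exp (n * u x) * ‖x‖ ^ ((n : ℝ) * α) : ℝ) : ℂ) * φ x := by
    intro φ
    have i1 := hmulint (pv p) φ hqc.measurable K hK
    have i2 := hmulint P φ hPm K₂ hPabs'
    have i3 : Integrable (fun x => (c₀ : ℂ) * FL n φ x) :=
      hmulint (fun _ => c₀) φ measurable_const |c₀| (fun x => by
        have h2 : (1 : ℝ) ≤ (1 + ‖x‖) ^ (n - 1) := one_le_pow₀ (by linarith [norm_nonneg x])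
        have h5 : |c₀| * 1 ≤ |c₀| * (1 + ‖x‖) ^ (n - 1) := mul_le_mul_of_nonneg_left h2 (abs_nonneg _)
        linarith)
    have i2' : Integrable (fun x => ((2 * Λ / Lam1 n : ℝ) : ℂ) * ((P x : ℂ) * FL n φ x)) := i2.const_mul _
    have e1 : ∫ x, (pv p x : ℂ) * FL n φ x = 0 := hMOM n φ p (by omega) hdeg
    have e3 : ∫ x, (c₀ : ℂ) * FL n φ x = 0 := by
      have h := hMOM n φ (MvPolynomial.C c₀) (by omega) (by rw [MvPolynomial.totalDegree_C]; omega)
      have h2 : ∀ x : E n, pv (MvPolynomial.C c₀) x = c₀ := by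
        intro x
        unfold pv
        rw [MvPolynomial.eval_C]
      simp only [h2] at h
      exact h
    have e2 := fub_identity (by omega) hPB hDEC hFS hs0 hg hθ φ
    have h4 : ∀ x, (u x : ℂ) * FL n φ x = ((pv p x : ℂ) * FL n φ x +
        ((2 * Λ / Lam1 n : ℝ) : ℂ) * ((P x : ℂ) * FL n φ x)) + (c₀ : ℂ) * FL n φ x := by
      intro x
      rw [hu]
      push_cast
      ring
    simp only [h4]
    have i12 : Integrable (fun x => (pv p x : ℂ) * FL n φ x +
        ((2 * Λ / Lam1 n : ℝ) : ℂ) * ((P x : ℂ) * FL n φ x)) := i1.add i2'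
    rw [integral_add i12 i3, integral_add i1 i2', e1, e3, integral_const_mul, e2, zero_add, add_zero,
      nu_integral α hqc, ← integral_const_mul, ← integral_const_mul]
    apply integral_congr_ae
    refine Eventually.of_forall fun x => ?_
    simp only
    rw [hexp x]
    have hL : (Lam1 n : ℂ) ≠ 0 := by exact_mod_cast hL1.ne'
    push_cast
    field_simp
  refine ⟨u, c₀, ⟨?_, ?_, ?_⟩, ?_, ?_, ?_⟩
  · -- locally integrable
    have hcont : Continuous (fun x : E n => K₃ * (1 + ‖x‖) ^ (n - 1)) := by fun_prop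
    refine hcont.locallyIntegrable.mono humeas.aestronglyMeasurable (Eventually.of_forall fun x => ?_)
    rw [Real.norm_eq_abs, Real.norm_eq_abs]
    exact (huabs x).trans (le_abs_self _)
  · -- even dimensions
    intro hev φ hφ hφc
    obtain ⟨Φ, hΦ, hΦ2⟩ := hEVEN n φ hev hφ hφc
    have h := hmain Φ
    have h1 : ∫ x, (u x : ℂ) * FL n Φ x =
        ((∫ x, u x * ((-1) ^ (n / 2) * (Laplacian.laplacian^[n / 2] φ) x) : ℝ) : ℂ) := by
      rw [← integral_complex_ofReal]
      apply integral_congr_ae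
      refine Eventually.of_forall fun x => ?_
      simp only
      rw [hΦ2 x, ← Complex.ofReal_mul]
    have h2 : ∫ x, ((Real.exp (n * u x) * ‖x‖ ^ ((n : ℝ) * α) : ℝ) : ℂ) * Φ x =
        ((∫ x, Real.exp (n * u x) * ‖x‖ ^ ((n : ℝ) * α) * φ x : ℝ) : ℂ) := by
      rw [← integral_complex_ofReal]
      apply integral_congr_ae
      refine Eventually.of_forall fun x => ?_
      simp only
      rw [hΦ x, ← Complex.ofReal_mul]
    rw [h1, h2] at h
    exact_mod_cast h
  · -- odd dimensions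
    intro _
    refine ⟨?_, fun φ => ⟨huint φ, hmain φ⟩⟩
    refine ((integrable_weight n (by omega)).const_mul K₃).mono' ?_ (Eventually.of_forall fun x => ?_)
    · apply Measurable.aestronglyMeasurable
      apply Measurable.mul
      · exact continuous_abs.measurable.comp humeas
      · apply Measurable.inv
        fun_prop
    · have h1 : 0 ≤ (1 + ‖x‖ ^ (2 * n))⁻¹ := by positivity
      rw [Real.norm_of_nonneg (mul_nonneg (abs_nonneg _) h1), ← mul_assoc]
      exact mul_le_mul_of_nonneg_right (huabs x) h1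
  · -- integrable
    have h1 := nu_integrable α hqc (hθi.const_mul Λ)
    refine h1.congr (Eventually.of_forall fun x => ?_)
    simp only
    rw [hexp x]
  · -- the integral
    simp only [hexp]
    rw [← nu_integral_real α hqc (fun x => Λ * θ x), integral_const_mul, hθ.one, mul_one]
  · -- the limit
    have h1 := hASY n (nu α (pv p)) s M hs0 hg θ hθ
    have h2 := (h1.const_mul (2 * Λ / Lam1 n)).add_const c₀
    rw [mul_zero, zero_add] at h2
    refine h2.congr fun x => ?_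
    rw [hu]
    ring

end Pool.Agent.E8helper70.QC
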