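import Pool.Agent.E8helper70.QC.Est

/-!
# Project QC: the potential against `(-Δ)^(n/2) φ`
-/

set_option autoImplicit false

open MeasureTheory Filter Topology SchwartzMap FourierTransform Laplacian
open scoped ContDiff ENNReal Real

namespace Pool.Agent.E8helper70.QC

open Pool.Agent.E8helper19.QC

variable {n : ℕ}

/-- integrability of the kernel against a density and `(-Δ)^(n/2) φ` -/
lemma fub_integrable (hn : 2 ≤ n) (hPB : S_PB) (hDEC : S_DEC) {ν : Measure (E n)} {s M : ℝ} (hs : 0 < s)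
    (hg : Good ν s M) {θ : E n → ℝ} (hθ : Dens ν θ) (φ : 𝓢(E n, ℂ)) :
    Integrable (fun z : E n × E n => ((-Real.log ‖z.1 - z.2‖ * θ z.2 : ℝ) : ℂ) * FL n φ z.1)
      (volume.prod ν) := by
  have := hg.fin
  obtain ⟨B, hB⟩ := hθ.bd
  obtain ⟨hFc, -, hFi⟩ := hDEC n φ (by omega)
  obtain ⟨-, hlog, -⟩ := hPB n ν s M hs hg
  have hB0 : 0 ≤ B := (hθ.nn 0).trans (hB 0)
  have hmeas : Measurable (fun z : E n × E n => ((-Real.log ‖z.1 - z.2‖ * θ z.2 : ℝ) : ℂ) * FL n φ z.1) := by
    apply Measurable.mul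
    · apply Complex.measurable_ofReal.comp
      apply Measurable.mul
      · apply Measurable.neg
        apply Real.measurable_log.comp
        fun_prop
      · exact hθ.meas.comp measurable_snd
    · exact hFc.measurable.comp measurable_fst
  -- pointwise bound
  have hpt : ∀ x y : E n, ‖((-Real.log ‖x - y‖ * θ y : ℝ) : ℂ) * FL n φ x‖ ≤
      (B * ‖FL n φ x‖) * ((1 / s) * ‖x - y‖ ^ (-s) + (Real.log (1 + ‖x‖) + Real.log (1 + ‖y‖))) := by
    intro x y
    rw [norm_mul, Complex.norm_real, norm_mul, norm_neg, Real.norm_eq_abs, Real.norm_eq_abs,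
      abs_of_nonneg (hθ.nn y)]
    have h1 := log_kernel hs x y
    have h2 : 0 ≤ |Real.log ‖x - y‖| := abs_nonneg _
    calc |Real.log ‖x - y‖| * θ y * ‖FL n φ x‖
        ≤ ((1 / s) * ‖x - y‖ ^ (-s) + (Real.log (1 + ‖x‖) + Real.log (1 + ‖y‖))) * B * ‖FL n φ x‖ := by
          apply mul_le_mul_of_nonneg_right _ (norm_nonneg _)
          exact mul_le_mul h1 (hB y) (hθ.nn y) (h2.trans h1)
      _ = _ := by ring
  have hbi : ∀ x : E n, Integrable (fun y => (B * ‖FL n φ x‖) *
      ((1 / s) * ‖x - y‖ ^ (-s) + (Real.log (1 + ‖x‖) + Real.log (1 + ‖y‖)))) ν := by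
    intro x
    apply Integrable.const_mul
    apply Integrable.add
    · exact (hg.rint x).const_mul _
    · exact (integrable_const _).add hlog
  rw [integrable_prod_iff hmeas.aestronglyMeasurable]
  constructor
  · refine Eventually.of_forall fun x => ?_
    refine (hbi x).mono' ?_ (Eventually.of_forall fun y => hpt x y)
    exact (hmeas.comp measurable_prodMk_left).aestronglyMeasurable
  · set K := ∫ y, Real.log (1 + ‖y‖) ∂ν with hK
    have hK0 : 0 ≤ K := integral_nonneg fun y => Real.log_nonneg (by linarith [norm_nonneg y])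
    have hM0 : 0 ≤ M := (integral_nonneg fun y => Real.rpow_nonneg (norm_nonneg _) _).trans (hg.rb 0)
    have hdom : Integrable (fun x : E n => (B * ((1 / s) * M + ν.real Set.univ + K)) *
        ((1 + ‖x‖) ^ (n - 1) * ‖FL n φ x‖)) := hFi.const_mul _
    refine hdom.mono' ?_ (Eventually.of_forall fun x => ?_)
    · exact (hmeas.aestronglyMeasurable (μ := volume.prod ν)).norm.integral_prod_right'
    · have h0 : 0 ≤ ∫ y, ‖((-Real.log ‖x - y‖ * θ y : ℝ) : ℂ) * FL n φ x‖ ∂ν :=
        integral_nonneg fun y => norm_nonneg _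
      rw [Real.norm_of_nonneg h0]
      have h1 : ∫ y, ‖((-Real.log ‖x - y‖ * θ y : ℝ) : ℂ) * FL n φ x‖ ∂ν ≤
          (B * ‖FL n φ x‖) * ((1 / s) * M + (Real.log (1 + ‖x‖) * ν.real Set.univ + K)) := by
        refine (integral_mono_of_nonneg (Eventually.of_forall fun y => norm_nonneg _) (hbi x)
          (Eventually.of_forall fun y => hpt x y)).trans ?_
        have ha : Integrable (fun y : E n => Real.log (1 + ‖x‖) + Real.log (1 + ‖y‖)) ν :=
          (integrable_const _).add hlog
        rw [integral_const_mul, integral_add ((hg.rint x).const_mul _) ha,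
          integral_add (integrable_const _) hlog, integral_const_mul, integral_const, smul_eq_mul]
        apply mul_le_mul_of_nonneg_left _ (mul_nonneg hB0 (norm_nonneg _))
        have := mul_le_mul_of_nonneg_left (hg.rb x) (show 0 ≤ 1 / s by positivity)
        rw [← hK]
        linarith
      refine h1.trans ?_
      have h2 : Real.log (1 + ‖x‖) ≤ (1 + ‖x‖) ^ (n - 1) := log_one_add_le (by omega) x
      have h3 : (1 : ℝ) ≤ (1 + ‖x‖) ^ (n - 1) := one_le_pow₀ (by linarith [norm_nonneg x])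
      have h4 : 0 ≤ ν.real Set.univ := measureReal_nonneg
      have h5 : (1 / s) * M + (Real.log (1 + ‖x‖) * ν.real Set.univ + K) ≤
          ((1 / s) * M + ν.real Set.univ + K) * (1 + ‖x‖) ^ (n - 1) := by
        have h6 : 0 ≤ (1 / s) * M := mul_nonneg (by positivity) hM0
        have h7 : Real.log (1 + ‖x‖) * ν.real Set.univ ≤ (1 + ‖x‖) ^ (n - 1) * ν.real Set.univ :=
          mul_le_mul_of_nonneg_right h2 h4
        nlinarith
      calc (B * ‖FL n φ x‖) * ((1 / s) * M + (Real.log (1 + ‖x‖) * ν.real Set.univ + K))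
          ≤ (B * ‖FL n φ x‖) * (((1 / s) * M + ν.real Set.univ + K) * (1 + ‖x‖) ^ (n - 1)) :=
            mul_le_mul_of_nonneg_left h5 (mul_nonneg hB0 (norm_nonneg _))
        _ = _ := by ring

/-- the potential tested against `(-Δ)^(n/2) φ` -/
lemma fub_identity (hn : 2 ≤ n) (hPB : S_PB) (hDEC : S_DEC) (hFS : S_FS) {ν : Measure (E n)} {s M : ℝ}
    (hs : 0 < s) (hg : Good ν s M) {θ : E n → ℝ} (hθ : Dens ν θ) (φ : 𝓢(E n, ℂ)) :
    ∫ x, (Pot ν θ x : ℂ) * FL n φ x = ((Lam1 n / 2 : ℝ) : ℂ) * ∫ y, (θ y : ℂ) * φ y ∂ν := by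
  have := hg.fin
  have hint := fub_integrable hn hPB hDEC hs hg hθ φ
  have h1 : ∀ x, (Pot ν θ x : ℂ) * FL n φ x =
      ∫ y, ((-Real.log ‖x - y‖ * θ y : ℝ) : ℂ) * FL n φ x ∂ν := by
    intro x
    rw [integral_mul_const]
    unfold Pot
    rw [integral_complex_ofReal]
  simp only [h1]
  rw [integral_integral_swap hint, ← integral_const_mul]
  apply integral_congr_ae
  refine Eventually.of_forall fun y => ?_
  simp only
  have h2 := (hFS n φ hn y).2
  have h3 : ∀ x : E n, ((-Real.log ‖x - y‖ * θ y : ℝ) : ℂ) * FL n φ x =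
      (θ y : ℂ) * (((-Real.log ‖x - y‖ : ℝ) : ℂ) * FL n φ x) := by
    intro x
    push_cast
    ring
  simp only [h3]
  rw [integral_const_mul, h2]
  ring

end Pool.Agent.E8helper70.QC
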